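import Pool.Agent.Q283.EN.Stm
import Pool.Agent.Q153.LK.BASE

/-!
# Project EN (helper283), job BASE2: normalised generators and the reciprocity function, `p = 2`
-/

set_option autoImplicit false

namespace Pool.Agent.Q208.EN

open NumberField IsDedekindDomain Filter Topology
open Pool.Agent.Q7.LK Pool.Agent.Q283.EN Pool.Agent.Q153.LK
open Pool.Agent.Q283.LQ (Sm Box Nest nS)
open Pool.Agent.Q53.LQ2.NEST (Cs Nm fin_sm tend_top)

variable {p : ℕ} [Fact p.Prime] {F : Type} [Field F] [NumberField F]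

/-- the reciprocity symbol depends only on the class of the first prime -/
theorem rec_dep' (hB : S_BAS) {ζ : F} (hR : P_REC p F ζ) (hζ : IsPrimitiveRoot ζ p) {y : ℕ}
    (hy2 : p ≤ y) {f : ℕ} {u r : Fin f → F} (hr : ∀ l, r l ≠ 0) {π : HeightOneSpectrum (𝓞 F) → F}
    (hπ0 : ∀ q, ¬ Sm y q → π q ≠ 0)
    (hπ1 : ∀ q, ¬ Sm y q → q.valuation F (π q) = WithZero.exp (-1 : ℤ))
    (hπ2 : ∀ q, ¬ Sm y q → ∀ v : HeightOneSpectrum (𝓞 F), ¬ Sm y v → v ≠ q → v.valuation F (π q) = 1)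
    (hpc : ∀ q, ¬ Sm y q → Nn p y (π q * mon r (fun l => sy p ζ q (u l))))
    {q1 q2 q' : HeightOneSpectrum (𝓞 F)} (h1 : ¬ Sm y q1) (h2 : ¬ Sm y q2) (h' : ¬ Sm y q')
    (hs : (fun l => sy p ζ q1 (u l)) = fun l => sy p ζ q2 (u l)) (hne1 : q1 ≠ q') (hne2 : q2 ≠ q') :
    sy p ζ q' (π q1) - sy p ζ q1 (π q') = sy p ζ q' (π q2) - sy p ζ q2 (π q') := by
  classical
  by_cases h12 : q1 = q2
  · rw [h12]
  have hb : Nn p y (π q1 / π q2) := by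
    have h3 := nn_div hB (hpc q1 h1) (hpc q2 h2)
    rw [hs] at h3
    rwa [mul_div_mul_right _ _ (mon_ne hr _)] at h3
  have hvl : ∀ q, ¬ Sm y q → ∀ v : HeightOneSpectrum (𝓞 F), ¬ Sm y v → vl p v (π q) = if v = q then 1 else 0 := by
    intro q hq v hv
    by_cases hvq : v = q
    · rw [if_pos hvq, hvq]
      exact val_vl1 (hπ1 q hq)
    · rw [if_neg hvq]
      exact val_vl (hπ2 q hq v hv hvq)
  have hcond : ∀ v : HeightOneSpectrum (𝓞 F), ¬ Sm y v →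
      v.valuation F (π q1 / π q2) = 1 ∨ v.valuation F (π q') = 1 := by
    intro v hv
    by_cases hvq : v = q'
    · left
      rw [map_div₀, hπ2 q1 h1 v hv (by rw [hvq]; exact hne1.symm),
        hπ2 q2 h2 v hv (by rw [hvq]; exact hne2.symm), div_one]
    · right
      exact hπ2 q' h' v hv hvq
  have hev := (hR y hy2 (π q1 / π q2) (π q') (div_ne_zero (hπ0 q1 h1) (hπ0 q2 h2))
    (hπ0 q' h') hcond hb).2
  have c2 : ∑ᶠ v : {v : HeightOneSpectrum (𝓞 F) // ¬ Sm y v}, vl p v.1 (π q') * sy p ζ v.1 (π q1 / π q2) =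
      sy p ζ q' (π q1 / π q2) := by
    rw [finsum_eq_single _ (⟨q', h'⟩ : {v : HeightOneSpectrum (𝓞 F) // ¬ Sm y v})]
    · rw [hvl q' h' q' h', if_pos rfl, one_mul]
    · intro x hx
      rw [hvl q' h' x.1 x.2, if_neg fun e => hx (Subtype.ext e), zero_mul]
  have c1 : ∑ᶠ v : {v : HeightOneSpectrum (𝓞 F) // ¬ Sm y v}, vl p v.1 (π q1 / π q2) * sy p ζ v.1 (π q') =
      sy p ζ q1 (π q') - sy p ζ q2 (π q') := by
    have hne : (⟨q1, h1⟩ : {v : HeightOneSpectrum (𝓞 F) // ¬ Sm y v}) ≠ ⟨q2, h2⟩ := fun e =>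
      h12 (congrArg Subtype.val e)
    rw [finsum_eq_sum_of_support_subset (s := {⟨q1, h1⟩, ⟨q2, h2⟩}), Finset.sum_pair hne]
    · rw [vl_div hB q1 (hπ0 q1 h1) (hπ0 q2 h2), vl_div hB q2 (hπ0 q1 h1) (hπ0 q2 h2), hvl q1 h1 q1 h1,
        hvl q2 h2 q1 h1, hvl q1 h1 q2 h2, hvl q2 h2 q2 h2, if_pos rfl, if_pos rfl, if_neg h12,
        if_neg (Ne.symm h12)]
      ring
    · intro x hx
      by_contra hx2
      rw [Finset.coe_insert, Finset.coe_singleton, Set.mem_insert_iff, Set.mem_singleton_iff, not_or] at hx2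
      apply hx
      show vl p x.1 (π q1 / π q2) * _ = 0
      rw [vl_div hB x.1 (hπ0 q1 h1) (hπ0 q2 h2), hvl q1 h1 x.1 x.2, hvl q2 h2 x.1 x.2,
        if_neg fun e => hx2.1 (Subtype.ext e), if_neg fun e => hx2.2 (Subtype.ext e), sub_zero, zero_mul]
  rw [c1, c2, sy_div hB hζ (fun h => h' (sm_of_dp hy2 h)) (hπ0 q1 h1) (hπ0 q2 h2)
    (by rw [hvl q1 h1 q' h', if_neg hne1.symm]) (by rw [hvl q2 h2 q' h', if_neg hne2.symm])] at hev
  linear_combination (-1 : ZMod p) * hev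

open Classical in
/-- the general form -/
theorem base_gen (hBAS : S_BAS) (hCHEB : S_CHEB) {ζ : F} (hζ : IsPrimitiveRoot ζ p)
    (hBAS1 : P_BAS1 p F ζ) (hREC : P_REC p F ζ) : P_BASE p F ζ := by
  obtain ⟨y0, hy0⟩ := hBAS1
  refine ⟨y0, fun y hy => ?_⟩
  obtain ⟨f, u, r, P, B, hf⟩ := hy0 y hy
  choose c hc using B.pcl
  obtain ⟨π, hπ⟩ : ∃ π : HeightOneSpectrum (𝓞 F) → F, ∀ q (hq : ¬ Sm y q), π q = P q * mon u (c q hq) :=
    ⟨fun q => if hq : Sm y q then 1 else P q * mon u (c q hq), fun q hq => dif_neg hq⟩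
  have hp0 : ∀ q, ¬ Sm y q → P q ≠ 0 := by
    intro q hq h
    have h1 := (B.pv q hq).1
    rw [h, map_zero] at h1
    exact WithZero.exp_ne_zero h1.symm
  have hπ0 : ∀ q, ¬ Sm y q → π q ≠ 0 := by
    intro q hq
    rw [hπ q hq]
    exact mul_ne_zero (hp0 q hq) (mon_ne B.ue _)
  have hπ1 : ∀ q, ¬ Sm y q → q.valuation F (π q) = WithZero.exp (-1 : ℤ) := by
    intro q hq
    rw [hπ q hq, map_mul, (B.pv q hq).1, val_mon (fun l => B.uv l q hq), mul_one]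
  have hπ2 : ∀ q, ¬ Sm y q → ∀ v : HeightOneSpectrum (𝓞 F), ¬ Sm y v → v ≠ q → v.valuation F (π q) = 1 := by
    intro q hq v hv hvq
    rw [hπ q hq, map_mul, (B.pv q hq).2 v hv hvq, val_mon (fun l => B.uv l v hv), mul_one]
  have hpc : ∀ q, ¬ Sm y q → Nn p y (π q * mon r (fun l => sy p ζ q (u l))) := by
    intro q hq
    have h1 := hc q hq
    rw [hπ q hq]
    have h2 : P q * mon u (c q hq) * mon r (fun l => sy p ζ q (u l)) =
        P q * mon r (fun l => sy p ζ q (u l)) * mon u (c q hq) := by ring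
    rw [h2]
    exact h1
  have hdep : ∀ {q1 q2 q' : HeightOneSpectrum (𝓞 F)}, ¬ Sm y q1 → ¬ Sm y q2 → ¬ Sm y q' →
      (fun l => sy p ζ q1 (u l)) = (fun l => sy p ζ q2 (u l)) → q1 ≠ q' → q2 ≠ q' →
      sy p ζ q' (π q1) - sy p ζ q1 (π q') = sy p ζ q' (π q2) - sy p ζ q2 (π q') :=
    fun h1 h2 h' hs ha1 ha2 =>
      rec_dep' hBAS hREC hζ B.two B.re hπ0 hπ1 hπ2 hpc h1 h2 h' hs ha1 ha2
  let Pr : (Fin f → ZMod p) → (Fin f → ZMod p) → HeightOneSpectrum (𝓞 F) × HeightOneSpectrum (𝓞 F) → Prop :=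
    fun φ φ' z => ¬ Sm y z.1 ∧ ¬ Sm y z.2 ∧ z.1 ≠ z.2 ∧ (fun l => sy p ζ z.1 (u l)) = φ ∧
      (fun l => sy p ζ z.2 (u l)) = φ'
  obtain ⟨g, hg⟩ : ∃ g : (Fin f → ZMod p) → (Fin f → ZMod p) → ZMod p, ∀ φ φ', (∃ z, Pr φ φ' z) →
      ∃ z, Pr φ φ' z ∧ g φ φ' = sy p ζ z.2 (π z.1) - sy p ζ z.1 (π z.2) := by
    refine ⟨fun φ φ' => if h : ∃ z, Pr φ φ' z then
      sy p ζ h.choose.2 (π h.choose.1) - sy p ζ h.choose.1 (π h.choose.2)
      else 0, fun φ φ' h => ⟨h.choose, h.choose_spec, dif_pos h⟩⟩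
  refine ⟨f, u, r, π, g, ⟨B.two, B.ue, B.re, ?_, B.ind, B.full, ?_, B.cls, hpc, ?_⟩, hf⟩
  · exact fun l v hv => val_vl (B.uv l v hv)
  · intro q hq
    refine ⟨hπ0 q hq, fun v hv => ?_⟩
    by_cases hvq : v = q
    · rw [if_pos hvq, hvq]
      exact val_vl1 (hπ1 q hq)
    · rw [if_neg hvq]
      exact val_vl (hπ2 q hq v hv hvq)
  · intro q q' hq hq' hap
    obtain ⟨⟨q1, q1'⟩, ⟨h1, h1', hap1, hs1, hs1'⟩, hgz⟩ :=
      hg (fun l => sy p ζ q (u l)) (fun l => sy p ζ q' (u l)) ⟨(q, q'), hq, hq', hap, rfl, rfl⟩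
    simp only at h1 h1' hap1 hs1 hs1' hgz
    rw [hgz]
    obtain ⟨q2, hq2, hs2, ha2, ha2'⟩ := ex_symb hCHEB hζ y B.ue B.ind (fun l => sy p ζ q (u l)) q' q1'
    have e1 := hdep hq hq2 hq' hs2.symm hap ha2
    have e2 := hdep h1 hq2 h1' (hs1.trans hs2.symm) hap1 ha2'
    have e3 := hdep h1' hq' hq2 hs1' ha2'.symm ha2.symm
    rw [e1, e2]
    linear_combination e3

/-- **JOB BASE2** -/
theorem base2 (hBAS : S_BAS) (hBAS1 : S_BAS12) (hREC : S_REC2) (hCHEB : S_CHEB) : S_BASE2 :=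
  fun F _ _ i ζ hi hζ => base_gen hBAS hCHEB hζ (hBAS1 F i ζ hi hζ) (hREC F i ζ hi hζ)

end Pool.Agent.Q208.EN
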